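import Mathlib
import Pool.Agent.Helper35.NonnegBasis.Embed

set_option autoImplicit false

open MeasureTheory
open scoped ENNReal

namespace Pool.Agent.Results.MP_c30670_an.NonnegBasicOnePlusEps

/-- The closed linear span of a sequence in a real normed space. -/
def ClosedSpan {E : Type} [NormedAddCommGroup E] [NormedSpace ℝ E] (f : ℕ → E) : Submodule ℝ E :=
  (Submodule.span ℝ (Set.range f)).topologicalClosure

/-- The sequence `f` of nonzero vectors is `K`-basic: it is a Schauder basis of its closed linear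
span and all partial-sum projections of this basis have norm at most `K`. -/
def IsBasicWithConstant {E : Type} [NormedAddCommGroup E] [NormedSpace ℝ E] (K : ℝ)
    (f : ℕ → E) : Prop :=
  (∀ n, f n ≠ 0) ∧ ∃ b : SchauderBasis ℝ (ClosedSpan f),
    (∀ n, ((b n : ClosedSpan f) : E) = f n) ∧ ∀ N, ‖b.proj N‖ ≤ K

/-- There is a linear isometry from `X` into the subspace `V` of `Y`. -/
def EmbedsIsometrically (X : Type) {Y : Type} [NormedAddCommGroup X] [NormedSpace ℝ X]
    [NormedAddCommGroup Y] [NormedSpace ℝ Y] (V : Submodule ℝ Y) : Prop :=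
  ∃ J : X →ₗ[ℝ] Y, (∀ x, ‖J x‖ = ‖x‖) ∧ ∀ x, J x ∈ V

/-- For all `1 ≤ p < ∞` and all `ε > 0` there is a `(1 + ε)`-basic sequence of non-negative
functions in `L_p(ℝ)` whose closed linear span contains an isometric copy of `L_p(ℝ)`. -/
theorem result (p : ℝ≥0∞) [Fact (1 ≤ p)] (hp : p ≠ ∞) (ε : ℝ) (hε : 0 < ε) :
    ∃ f : ℕ → Lp ℝ p (volume : Measure ℝ),
      (∀ n, ∀ᵐ x ∂(volume : Measure ℝ), 0 ≤ f n x) ∧
      IsBasicWithConstant (1 + ε) f ∧
      EmbedsIsometrically (Lp ℝ p (volume : Measure ℝ)) (ClosedSpan f) := by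
  have hp0 : p ≠ 0 := (lt_of_lt_of_le zero_lt_one (Fact.out : 1 ≤ p)).ne'
  obtain ⟨P, hP⟩ := Pool.Agent.Helper35.NonnegBasis.exists_par p hp ε hε
  have hne := P.f_ne_zero p hp0 hp
  refine ⟨P.f p, fun n => ?_, ⟨hne, ?_⟩, ?_⟩
  · have h := P.f_nonneg p n
    rw [← Lp.coeFn_nonneg] at h
    exact h
  · exact Pool.Agent.Helper35.NonnegBasis.grunblum (P.f p) hne (1 + ε) hP
  · obtain ⟨J, hJ⟩ := P.exists_embedding p hp
    exact ⟨J.toLinearMap, fun g => J.norm_map g, hJ⟩

end Pool.Agent.Results.MP_c30670_an.NonnegBasicOnePlusEps
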