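import Mathlib

/-!
# Basis constants of non-negative Schauder bases of `L₁(ℝ)` (question Q2 of MP_c30670_an)

The infimum of the basis constants of all non-negative Schauder bases of `L₁(ℝ)` is `1`, and it is
not attained.

Upper bound. Fix `0 < θ < 1`. Intervals are indexed by `ℕ`: interval `0` is a unit interval
`[e 0, e 0 + 1)` (`e` enumerates `ℤ`), intervals `3s+1` and `3s+2` split interval `s` in the ratio
`θ : 1 - θ`, and interval `3s+3` is the unit interval `[e (s+1), e (s+1) + 1)`. Let `φ t` be the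
normalised indicator of interval `t`. The basis is `f 0 = φ 0`, `f (2s+1) = φ (3s+3) + φ s`,
`f (2s+2) = φ (3s+1) + φ (3s+3)`. Its constant is at most `(1 + θ) / (1 - θ)`.

Non-attainment. If a non-negative basis were monotone, take `h` of integral zero, supported where
`b 0 > 0`, with `|h| = b 0`. Comparing `‖x‖ ≤ ‖x + t (h - P_N h)‖` for `x = b 0 + ... + b (N-1)`
and all real `t` gives `∫ P_N h = ∫ h = 0` for all `N`, whence all coefficients of `h` vanish.
-/

open MeasureTheory Set Filter Topology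
open scoped ENNReal NNReal

namespace Pool.Agent.Results.MP_c30670_an.NonnegBasisInfimum

section General

variable {X : Type*} [NormedAddCommGroup X] [NormedSpace ℝ X]

theorem linInd_of_ineq (f : ℕ → X) (hf : ∀ n, f n ≠ 0) (K : ℝ)
    (hK : ∀ (a : ℕ → ℝ) (N M : ℕ), N ≤ M →
      ‖∑ n ∈ Finset.range N, a n • f n‖ ≤ K * ‖∑ n ∈ Finset.range M, a n • f n‖) :
    LinearIndependent ℝ f := by
  classical
  rw [linearIndependent_iff']
  intro s g hg i hi
  set a : ℕ → ℝ := fun n => if n ∈ s then g n else 0 with ha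
  obtain ⟨M, hM⟩ : ∃ M, s ⊆ Finset.range M := s.exists_nat_subset_range
  have h0 : ∑ n ∈ Finset.range M, a n • f n = 0 := by
    rw [← hg]
    symm
    have h1 : ∑ n ∈ s, g n • f n = ∑ n ∈ s, a n • f n :=
      Finset.sum_congr rfl (fun n hn => by simp [ha, hn])
    rw [h1]
    apply Finset.sum_subset hM
    intro n _ hn
    simp [ha, hn]
  have hz : ∀ N, N ≤ M → ∑ n ∈ Finset.range N, a n • f n = 0 := by
    intro N hN
    have := hK a N M hN
    rw [h0, norm_zero, mul_zero] at this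
    exact norm_le_zero_iff.mp this
  have hiM : i + 1 ≤ M := Finset.mem_range.mp (hM hi)
  have h2 := hz (i + 1) hiM
  rw [Finset.sum_range_succ, hz i (by omega), zero_add] at h2
  have h3 : a i = 0 := by
    rcases smul_eq_zero.mp h2 with h | h
    · exact h
    · exact absurd h (hf i)
  simpa [ha, hi] using h3

theorem exists_basis (f : ℕ → X) (hf : ∀ n, f n ≠ 0) (K : ℝ) (hK0 : 0 ≤ K)
    (hK : ∀ (a : ℕ → ℝ) (N M : ℕ), N ≤ M →
      ‖∑ n ∈ Finset.range N, a n • f n‖ ≤ K * ‖∑ n ∈ Finset.range M, a n • f n‖)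
    (hd : Dense (Submodule.span ℝ (Set.range f) : Set X)) :
    ∃ b : SchauderBasis ℝ X, (∀ n, b n = f n) ∧ b.enormProjBound ≤ ENNReal.ofReal K := by
  classical
  have hli := linInd_of_ineq f hf K hK
  let B := Module.Basis.span hli
  have hB : ∀ n, ((B n : Submodule.span ℝ (Set.range f)) : X) = f n := fun n => by
    have := Module.Basis.span_apply hli n
    rw [show B n = _ from this]
  -- expansion of elements of the span
  have hexp : ∀ x : Submodule.span ℝ (Set.range f), ∃ M, ∀ N, M ≤ N →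
      ∑ n ∈ Finset.range N, B.repr x n • f n = (x : X) := by
    intro x
    obtain ⟨M, hM⟩ : ∃ M, (B.repr x).support ⊆ Finset.range M :=
      (B.repr x).support.exists_nat_subset_range
    refine ⟨M, fun N hN => ?_⟩
    have h1 := B.linearCombination_repr x
    have h2 : ((Finsupp.linearCombination ℝ (⇑B) (B.repr x) : Submodule.span ℝ (Set.range f)) : X)
        = ∑ n ∈ Finset.range N, B.repr x n • f n := by
      rw [Finsupp.linearCombination_apply, Finsupp.sum]
      rw [Submodule.coe_sum]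
      have h3 : ∀ n ∈ (B.repr x).support, ((B.repr x n • B n : Submodule.span ℝ (Set.range f)) : X)
          = B.repr x n • f n := fun n _ => by
        rw [Submodule.coe_smul, hB]
      rw [Finset.sum_congr rfl h3]
      apply Finset.sum_subset (hM.trans (Finset.range_mono hN))
      intro n _ hn
      rw [Finsupp.notMem_support_iff.mp hn, zero_smul]
    rw [← h2, h1]
  have hbd : ∀ (x : Submodule.span ℝ (Set.range f)) (N : ℕ),
      ‖∑ n ∈ Finset.range N, B.repr x n • f n‖ ≤ K * ‖(x : X)‖ := by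
    intro x N
    obtain ⟨M, hM⟩ := hexp x
    have := hK (fun n => B.repr x n) N (max N M) (le_max_left _ _)
    rwa [hM _ (le_max_right _ _)] at this
  have hcb : ∀ (n : ℕ) (x : Submodule.span ℝ (Set.range f)),
      ‖B.coord n x‖ ≤ (2 * K / ‖f n‖) * ‖x‖ := by
    intro n x
    have hfn : 0 < ‖f n‖ := norm_pos_iff.mpr (hf n)
    rw [div_mul_eq_mul_div, le_div_iff₀ hfn]
    have h1 : (B.coord n x) • f n = ∑ i ∈ Finset.range (n + 1), B.repr x i • f i
        - ∑ i ∈ Finset.range n, B.repr x i • f i := by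
      rw [Finset.sum_range_succ, add_sub_cancel_left]
      rfl
    calc ‖B.coord n x‖ * ‖f n‖ = ‖(B.coord n x) • f n‖ := (norm_smul _ _).symm
      _ ≤ ‖∑ i ∈ Finset.range (n + 1), B.repr x i • f i‖
        + ‖∑ i ∈ Finset.range n, B.repr x i • f i‖ := by rw [h1]; exact norm_sub_le _ _
      _ ≤ K * ‖(x : X)‖ + K * ‖(x : X)‖ := add_le_add (hbd x _) (hbd x _)
      _ = 2 * K * ‖x‖ := by rw [Submodule.coe_norm]; ring
  have hext : ∀ n, ∃ c : StrongDual ℝ X, ∀ x : Submodule.span ℝ (Set.range f),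
      c x = B.repr x n := by
    intro n
    obtain ⟨c, hc, _⟩ := exists_extension_norm_eq (Submodule.span ℝ (Set.range f))
      ((B.coord n).mkContinuous _ (hcb n))
    exact ⟨c, fun x => by rw [hc x]; rfl⟩
  choose c hc using hext
  -- the partial sum operators
  let Q : ℕ → X →L[ℝ] X := fun n => ∑ i ∈ Finset.range n, (c i).smulRight (f i)
  have hQ : ∀ n x, Q n x = ∑ i ∈ Finset.range n, c i x • f i := by
    intro n x
    simp [Q]
  have hQb : ∀ n x, ‖Q n x‖ ≤ K * ‖x‖ := by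
    intro n x
    have hcl : IsClosed {x : X | ‖Q n x‖ ≤ K * ‖x‖} :=
      isClosed_le ((Q n).continuous.norm) (continuous_const.mul continuous_norm)
    have hsub : (Submodule.span ℝ (Set.range f) : Set X) ⊆ {x : X | ‖Q n x‖ ≤ K * ‖x‖} := by
      intro y hy
      have := hbd ⟨y, hy⟩ n
      simp only [Set.mem_ofPred_eq, hQ]
      have h2 : ∀ i, c i y = B.repr ⟨y, hy⟩ i := fun i => hc i ⟨y, hy⟩
      simp only [h2]
      exact this
    have := hcl.closure_subset_iff.mpr hsub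
    rw [hd.closure_eq] at this
    exact this (Set.mem_univ x)
  have hQt : ∀ x, Tendsto (fun n => Q n x) atTop (𝓝 x) := by
    intro x
    rw [Metric.tendsto_atTop]
    intro ε hε
    obtain ⟨y, hy, hxy⟩ := Metric.dense_iff.mp hd x (ε / (K + 2)) (by positivity)
    obtain ⟨M, hM⟩ := hexp ⟨y, hxy⟩
    refine ⟨M, fun n hn => ?_⟩
    have hyb : dist y x < ε / (K + 2) := Metric.mem_ball.mp hy
    have hQy : Q n y = y := by
      rw [hQ]
      have h2 : ∀ i, c i y = B.repr ⟨y, hxy⟩ i := fun i => hc i ⟨y, hxy⟩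
      simp only [h2]
      exact hM n hn
    have h3 : Q n x - x = Q n (x - y) + (y - x) := by
      rw [map_sub, hQy]; abel
    rw [dist_eq_norm, h3]
    have h4 : ‖x - y‖ < ε / (K + 2) := by rwa [← dist_eq_norm, dist_comm]
    have h5 : ‖y - x‖ < ε / (K + 2) := by rwa [← dist_eq_norm]
    have h6 : (K + 1) * ‖x - y‖ + 0 < (K + 2) * (ε / (K + 2)) := by
      have : (K + 1) * ‖x - y‖ ≤ (K + 1) * (ε / (K + 2)) :=
        mul_le_mul_of_nonneg_left h4.le (by linarith)
      have h7 : 0 < ε / (K + 2) := by positivity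
      nlinarith
    have h8 : (K + 2) * (ε / (K + 2)) = ε := by field_simp
    calc ‖Q n (x - y) + (y - x)‖ ≤ ‖Q n (x - y)‖ + ‖y - x‖ := norm_add_le _ _
      _ ≤ K * ‖x - y‖ + ‖x - y‖ := by
        have := hQb n (x - y)
        rw [norm_sub_rev y x]; linarith
      _ < ε := by linarith
  let b : SchauderBasis ℝ X :=
    { basis := f
      coord := c
      ortho := by
        intro i j
        have h1 := hc i (B j)
        rw [hB] at h1
        rw [h1, B.repr_self]
        by_cases h : i = j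
        · subst h; simp
        · rw [Finsupp.single_eq_of_ne h]
          simp only [Pi.single, Function.update, dif_neg h, Pi.zero_apply]
      expansion := by
        intro x
        rw [HasSum, SummationFilter.conditional_filter_eq_map_range, tendsto_map'_iff]
        exact (hQt x).congr fun n => by rw [hQ]; rfl }
  refine ⟨b, fun n => rfl, ?_⟩
  refine iSup_le fun n => ?_
  have hn : ‖b.proj n‖ ≤ K := by
    refine ContinuousLinearMap.opNorm_le_bound _ hK0 fun x => ?_
    have h1 : b.proj n x = Q n x := by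
      rw [SchauderBasis.proj_apply, hQ]
    rw [h1]
    exact hQb n x
  rw [← ofReal_norm]
  exact ENNReal.ofReal_le_ofReal hn

end General

section Abstract

variable {X : Type*} [NormedAddCommGroup X] [NormedSpace ℝ X]

theorem sum_top {Y : Type*} [AddCommMonoid Y] (g : ℕ → Y) (s : ℕ) :
    ∑ t ∈ Finset.Ico (s + 1) (3 * (s + 1) + 1), g t
      = ∑ t ∈ Finset.Ico (s + 1) (3 * s + 1), g t + g (3 * s + 1) + g (3 * s + 2)
        + g (3 * s + 3) := by
  have e : 3 * (s + 1) + 1 = 3 * s + 1 + 1 + 1 + 1 := by ring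
  rw [e, Finset.sum_Ico_succ_top (show s + 1 ≤ 3 * s + 1 + 1 + 1 by omega),
    Finset.sum_Ico_succ_top (show s + 1 ≤ 3 * s + 1 + 1 by omega),
    Finset.sum_Ico_succ_top (show s + 1 ≤ 3 * s + 1 by omega)]

theorem sum_bot {Y : Type*} [AddCommMonoid Y] (g : ℕ → Y) (s : ℕ) :
    ∑ t ∈ Finset.Ico s (3 * s + 1), g t = g s + ∑ t ∈ Finset.Ico (s + 1) (3 * s + 1), g t :=
  Finset.sum_eq_sum_Ico_succ_bot (by omega) _

theorem range_one {Y : Type*} [AddCommMonoid Y] (g : ℕ → Y) (s : ℕ) :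
    ∑ t ∈ Finset.range (2 * s + 2), g t
      = ∑ t ∈ Finset.range (2 * s + 1), g t + g (2 * s + 1) :=
  Finset.sum_range_succ _ _

theorem range_two {Y : Type*} [AddCommMonoid Y] (g : ℕ → Y) (s : ℕ) :
    ∑ t ∈ Finset.range (2 * s + 3), g t
      = ∑ t ∈ Finset.range (2 * s + 1), g t + g (2 * s + 1) + g (2 * s + 2) := by
  rw [show 2 * s + 3 = (2 * s + 2) + 1 by ring, Finset.sum_range_succ, range_one]

/-- The candidate basis built from a tree-indexed family `φ`. -/
def fseq (φ : ℕ → X) (n : ℕ) : X :=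
  if n = 0 then φ 0
  else if n % 2 = 1 then φ (3 * (n / 2) + 3) + φ (n / 2)
  else φ (3 * (n / 2 - 1) + 1) + φ (3 * (n / 2 - 1) + 3)

omit [NormedSpace ℝ X] in
theorem fseq_zero (φ : ℕ → X) : fseq φ 0 = φ 0 := by simp [fseq]

omit [NormedSpace ℝ X] in
theorem fseq_odd (φ : ℕ → X) (s : ℕ) : fseq φ (2 * s + 1) = φ (3 * s + 3) + φ s := by
  have h1 : (2 * s + 1) ≠ 0 := by omega
  have h2 : (2 * s + 1) % 2 = 1 := by omega
  have h3 : (2 * s + 1) / 2 = s := by omega
  simp only [fseq, h1, h2, h3, if_true, if_false]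

omit [NormedSpace ℝ X] in
theorem fseq_even (φ : ℕ → X) (s : ℕ) :
    fseq φ (2 * s + 2) = φ (3 * s + 1) + φ (3 * s + 3) := by
  have h1 : (2 * s + 2) ≠ 0 := by omega
  have h2 : ¬ ((2 * s + 2) % 2 = 1) := by omega
  have h3 : (2 * s + 2) / 2 - 1 = s := by omega
  simp only [fseq, h1, h2, h3, if_false]

variable {φ : ℕ → X} {θ : ℝ}

/-- The norm at level `s + 1`. -/
theorem norm_level (hiso : ∀ (s : ℕ) (x : ℕ → ℝ),
      ‖∑ t ∈ Finset.Ico s (3 * s + 1), x t • φ t‖ = ∑ t ∈ Finset.Ico s (3 * s + 1), |x t|)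
    (s : ℕ) (x : ℕ → ℝ) (p q r : ℝ) :
    ‖(∑ t ∈ Finset.Ico (s + 1) (3 * s + 1), x t • φ t) + p • φ (3 * s + 1) + q • φ (3 * s + 2)
      + r • φ (3 * s + 3)‖
      = (∑ t ∈ Finset.Ico (s + 1) (3 * s + 1), |x t|) + |p| + |q| + |r| := by
  set y : ℕ → ℝ := fun t => if t = 3 * s + 1 then p else if t = 3 * s + 2 then q
    else if t = 3 * s + 3 then r else x t with hy
  have h1 := hiso (s + 1) y
  have y1 : y (3 * s + 1) = p := by simp [hy]
  have y2 : y (3 * s + 2) = q := by simp [hy]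
  have y3 : y (3 * s + 3) = r := by simp [hy]
  have y4 : ∀ t ∈ Finset.Ico (s + 1) (3 * s + 1), y t = x t := by
    intro t ht
    have := Finset.mem_Ico.mp ht
    have a1 : t ≠ 3 * s + 1 := by omega
    have a2 : t ≠ 3 * s + 2 := by omega
    have a3 : t ≠ 3 * s + 3 := by omega
    simp [hy, a1, a2, a3]
  have z1 : ∑ t ∈ Finset.Ico (s + 1) (3 * s + 1), y t • φ t
      = ∑ t ∈ Finset.Ico (s + 1) (3 * s + 1), x t • φ t :=
    Finset.sum_congr rfl (fun t ht => by rw [y4 t ht])
  have z2 : ∑ t ∈ Finset.Ico (s + 1) (3 * s + 1), |y t|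
      = ∑ t ∈ Finset.Ico (s + 1) (3 * s + 1), |x t| :=
    Finset.sum_congr rfl (fun t ht => by rw [y4 t ht])
  rw [sum_top, sum_top, y1, y2, y3, z1, z2] at h1
  exact h1

theorem norm_G (hiso : ∀ (s : ℕ) (x : ℕ → ℝ),
      ‖∑ t ∈ Finset.Ico s (3 * s + 1), x t • φ t‖ = ∑ t ∈ Finset.Ico s (3 * s + 1), |x t|)
    (s : ℕ) (x : ℕ → ℝ) :
    ‖∑ t ∈ Finset.Ico s (3 * s + 1), x t • φ t‖
      = |x s| + ∑ t ∈ Finset.Ico (s + 1) (3 * s + 1), |x t| := by
  rw [hiso, sum_bot]

theorem norm_G1 (hsplit : ∀ s, φ s = θ • φ (3 * s + 1) + (1 - θ) • φ (3 * s + 2))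
    (hθ0 : 0 ≤ θ) (hθ1 : θ ≤ 1)
    (hiso : ∀ (s : ℕ) (x : ℕ → ℝ),
      ‖∑ t ∈ Finset.Ico s (3 * s + 1), x t • φ t‖ = ∑ t ∈ Finset.Ico s (3 * s + 1), |x t|)
    (s : ℕ) (x : ℕ → ℝ) (b₁ : ℝ) :
    ‖(∑ t ∈ Finset.Ico s (3 * s + 1), x t • φ t) + b₁ • fseq φ (2 * s + 1)‖
      = (∑ t ∈ Finset.Ico (s + 1) (3 * s + 1), |x t|) + |x s + b₁| + |b₁| := by
  have h1 : (∑ t ∈ Finset.Ico s (3 * s + 1), x t • φ t) + b₁ • fseq φ (2 * s + 1)
      = (∑ t ∈ Finset.Ico (s + 1) (3 * s + 1), x t • φ t)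
        + (θ * (x s + b₁)) • φ (3 * s + 1) + ((1 - θ) * (x s + b₁)) • φ (3 * s + 2)
        + b₁ • φ (3 * s + 3) := by
    rw [sum_bot, fseq_odd]
    have : (x s + b₁) • φ s = (θ * (x s + b₁)) • φ (3 * s + 1)
        + ((1 - θ) * (x s + b₁)) • φ (3 * s + 2) := by
      rw [hsplit s]
      module
    have h2 : x s • φ s + ∑ t ∈ Finset.Ico (s + 1) (3 * s + 1), x t • φ t
        + b₁ • (φ (3 * s + 3) + φ s)
        = (∑ t ∈ Finset.Ico (s + 1) (3 * s + 1), x t • φ t) + (x s + b₁) • φ s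
          + b₁ • φ (3 * s + 3) := by module
    rw [h2, this]
    abel
  rw [h1, norm_level hiso, abs_mul, abs_mul, abs_of_nonneg hθ0,
    abs_of_nonneg (show (0:ℝ) ≤ 1 - θ by linarith)]
  ring

theorem norm_G2 (hsplit : ∀ s, φ s = θ • φ (3 * s + 1) + (1 - θ) • φ (3 * s + 2))
    (hθ1 : θ ≤ 1)
    (hiso : ∀ (s : ℕ) (x : ℕ → ℝ),
      ‖∑ t ∈ Finset.Ico s (3 * s + 1), x t • φ t‖ = ∑ t ∈ Finset.Ico s (3 * s + 1), |x t|)
    (s : ℕ) (x : ℕ → ℝ) (b₁ b₂ : ℝ) :
    ‖(∑ t ∈ Finset.Ico s (3 * s + 1), x t • φ t) + b₁ • fseq φ (2 * s + 1)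
      + b₂ • fseq φ (2 * s + 2)‖
      = (∑ t ∈ Finset.Ico (s + 1) (3 * s + 1), |x t|) + |θ * (x s + b₁) + b₂|
        + (1 - θ) * |x s + b₁| + |b₁ + b₂| := by
  have h1 : (∑ t ∈ Finset.Ico s (3 * s + 1), x t • φ t) + b₁ • fseq φ (2 * s + 1)
      + b₂ • fseq φ (2 * s + 2)
      = (∑ t ∈ Finset.Ico (s + 1) (3 * s + 1), x t • φ t)
        + (θ * (x s + b₁) + b₂) • φ (3 * s + 1) + ((1 - θ) * (x s + b₁)) • φ (3 * s + 2)
        + (b₁ + b₂) • φ (3 * s + 3) := by
    rw [sum_bot, fseq_odd, fseq_even]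
    have : (x s + b₁) • φ s = (θ * (x s + b₁)) • φ (3 * s + 1)
        + ((1 - θ) * (x s + b₁)) • φ (3 * s + 2) := by
      rw [hsplit s]
      module
    have h2 : x s • φ s + ∑ t ∈ Finset.Ico (s + 1) (3 * s + 1), x t • φ t
        + b₁ • (φ (3 * s + 3) + φ s) + b₂ • (φ (3 * s + 1) + φ (3 * s + 3))
        = (∑ t ∈ Finset.Ico (s + 1) (3 * s + 1), x t • φ t) + (x s + b₁) • φ s
          + b₂ • φ (3 * s + 1) + (b₁ + b₂) • φ (3 * s + 3) := by module
    rw [h2, this]
    module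
  rw [h1, norm_level hiso, abs_mul, abs_of_nonneg (show (0:ℝ) ≤ 1 - θ by linarith)]

/-- Partial sums of even length minus one are carried by the current pieces. -/
theorem exists_rep (hsplit : ∀ s, φ s = θ • φ (3 * s + 1) + (1 - θ) • φ (3 * s + 2))
    (a : ℕ → ℝ) (s : ℕ) :
    ∃ x : ℕ → ℝ, ∑ n ∈ Finset.range (2 * s + 1), a n • fseq φ n
      = ∑ t ∈ Finset.Ico s (3 * s + 1), x t • φ t := by
  induction s with
  | zero =>
    refine ⟨fun _ => a 0, ?_⟩
    simp [fseq_zero]
  | succ s ih =>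
    obtain ⟨x, hx⟩ := ih
    set b₁ := a (2 * s + 1) with hb1
    set b₂ := a (2 * s + 2) with hb2
    set y : ℕ → ℝ := fun t => if t = 3 * s + 1 then θ * (x s + b₁) + b₂
      else if t = 3 * s + 2 then (1 - θ) * (x s + b₁)
      else if t = 3 * s + 3 then b₁ + b₂ else x t with hy
    refine ⟨y, ?_⟩
    have y1 : y (3 * s + 1) = θ * (x s + b₁) + b₂ := by simp [hy]
    have y2 : y (3 * s + 2) = (1 - θ) * (x s + b₁) := by simp [hy]
    have y3 : y (3 * s + 3) = b₁ + b₂ := by simp [hy]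
    have y4 : ∀ t ∈ Finset.Ico (s + 1) (3 * s + 1), y t = x t := by
      intro t ht
      have := Finset.mem_Ico.mp ht
      have a1 : t ≠ 3 * s + 1 := by omega
      have a2 : t ≠ 3 * s + 2 := by omega
      have a3 : t ≠ 3 * s + 3 := by omega
      simp [hy, a1, a2, a3]
    have z1 : ∑ t ∈ Finset.Ico (s + 1) (3 * s + 1), y t • φ t
        = ∑ t ∈ Finset.Ico (s + 1) (3 * s + 1), x t • φ t :=
      Finset.sum_congr rfl (fun t ht => by rw [y4 t ht])
    rw [show 2 * (s + 1) + 1 = 2 * s + 3 by ring, range_two, hx, sum_top, sum_bot, y1, y2, y3, z1,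
      ← hb1, ← hb2, fseq_odd, fseq_even]
    have : (x s + b₁) • φ s = (θ * (x s + b₁)) • φ (3 * s + 1)
        + ((1 - θ) * (x s + b₁)) • φ (3 * s + 2) := by
      rw [hsplit s]
      module
    have h2 : x s • φ s + ∑ t ∈ Finset.Ico (s + 1) (3 * s + 1), x t • φ t
        + b₁ • (φ (3 * s + 3) + φ s) + b₂ • (φ (3 * s + 1) + φ (3 * s + 3))
        = (∑ t ∈ Finset.Ico (s + 1) (3 * s + 1), x t • φ t) + (x s + b₁) • φ s
          + b₂ • φ (3 * s + 1) + (b₁ + b₂) • φ (3 * s + 3) := by module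
    rw [h2, this]
    module

/-- The two elementary inequalities. -/
theorem ineq_contr (c b₁ b₂ : ℝ) (hθ1 : θ ≤ 1) :
    |c| ≤ |θ * (c + b₁) + b₂| + (1 - θ) * |c + b₁| + |b₁ + b₂| := by
  have h1 : |c| ≤ |θ * (c + b₁) + b₂| + |(1 - θ) * (c + b₁)| + |b₁ + b₂| := by
    have : c = (θ * (c + b₁) + b₂) + (1 - θ) * (c + b₁) - (b₁ + b₂) := by ring
    calc |c| = |(θ * (c + b₁) + b₂) + (1 - θ) * (c + b₁) - (b₁ + b₂)| := by rw [← this]
      _ ≤ |(θ * (c + b₁) + b₂) + (1 - θ) * (c + b₁)| + |b₁ + b₂| := abs_sub _ _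
      _ ≤ _ := by
        have := abs_add_le (θ * (c + b₁) + b₂) ((1 - θ) * (c + b₁))
        linarith
  rwa [abs_mul, abs_of_nonneg (show (0:ℝ) ≤ 1 - θ by linarith)] at h1

theorem ineq_K (ρ c b₁ b₂ : ℝ) (hρ : 0 ≤ ρ) (hθ0 : 0 ≤ θ) (hθ1 : θ < 1) :
    ρ + |c + b₁| + |b₁| ≤ ((1 + θ) / (1 - θ)) *
      (ρ + |θ * (c + b₁) + b₂| + (1 - θ) * |c + b₁| + |b₁ + b₂|) := by
  have h0 : (0:ℝ) < 1 - θ := by linarith
  have h1 : |b₁| - θ * |c + b₁| ≤ |θ * (c + b₁) + b₂| + |b₁ + b₂| := by
    have e : b₁ = θ * (c + b₁) - ((θ * (c + b₁) + b₂) - (b₁ + b₂)) := by ring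
    have h2 : |b₁| ≤ |θ * (c + b₁)| + |(θ * (c + b₁) + b₂) - (b₁ + b₂)| := by
      calc |b₁| = |θ * (c + b₁) - ((θ * (c + b₁) + b₂) - (b₁ + b₂))| := by rw [← e]
        _ ≤ _ := abs_sub _ _
    have h3 := abs_sub (θ * (c + b₁) + b₂) (b₁ + b₂)
    rw [abs_mul, abs_of_nonneg hθ0] at h2
    linarith
  rw [div_mul_eq_mul_div, le_div_iff₀ h0]
  have h4 : 0 ≤ |c + b₁| := abs_nonneg _
  have h5 : 0 ≤ |θ * (c + b₁) + b₂| + |b₁ + b₂| := by positivity
  have h6 := mul_le_mul_of_nonneg_left h1 h0.le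
  nlinarith [mul_nonneg hθ0 h5, mul_nonneg hθ0 hρ]

theorem one_le_K (hθ0 : 0 ≤ θ) (hθ1 : θ < 1) : 1 ≤ (1 + θ) / (1 - θ) := by
  rw [le_div_iff₀ (by linarith)]; linarith

theorem K_ineq (hsplit : ∀ s, φ s = θ • φ (3 * s + 1) + (1 - θ) • φ (3 * s + 2))
    (hθ0 : 0 ≤ θ) (hθ1 : θ < 1)
    (hiso : ∀ (s : ℕ) (x : ℕ → ℝ),
      ‖∑ t ∈ Finset.Ico s (3 * s + 1), x t • φ t‖ = ∑ t ∈ Finset.Ico s (3 * s + 1), |x t|)
    (a : ℕ → ℝ) (N M : ℕ) (hNM : N ≤ M) :
    ‖∑ n ∈ Finset.range N, a n • fseq φ n‖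
      ≤ ((1 + θ) / (1 - θ)) * ‖∑ n ∈ Finset.range M, a n • fseq φ n‖ := by
  set S : ℕ → ℝ := fun N => ‖∑ n ∈ Finset.range N, a n • fseq φ n‖ with hS
  have hK1 := one_le_K hθ0 hθ1
  -- one-step facts
  have step0 : ∀ s, S (2 * s + 1) ≤ S (2 * s + 2) := by
    intro s
    obtain ⟨x, hx⟩ := exists_rep hsplit a s
    simp only [hS]
    rw [range_one, hx, norm_G1 hsplit hθ0 hθ1.le hiso, norm_G hiso]
    have := abs_sub (x s + a (2 * s + 1)) (a (2 * s + 1))
    rw [add_sub_cancel_right] at this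
    linarith
  have step1 : ∀ s, S (2 * s + 1) ≤ S (2 * s + 3) := by
    intro s
    obtain ⟨x, hx⟩ := exists_rep hsplit a s
    simp only [hS]
    rw [range_two, hx, norm_G2 hsplit hθ1.le hiso, norm_G hiso]
    have := ineq_contr (θ := θ) (x s) (a (2 * s + 1)) (a (2 * s + 2)) hθ1.le
    linarith
  have step2 : ∀ s, S (2 * s + 2) ≤ ((1 + θ) / (1 - θ)) * S (2 * s + 3) := by
    intro s
    obtain ⟨x, hx⟩ := exists_rep hsplit a s
    simp only [hS]
    rw [range_two, range_one, hx, norm_G1 hsplit hθ0 hθ1.le hiso, norm_G2 hsplit hθ1.le hiso]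
    exact ineq_K _ _ _ _ (Finset.sum_nonneg fun t _ => abs_nonneg _) hθ0 hθ1
  have odd_mono : ∀ s k, S (2 * s + 1) ≤ S (2 * (s + k) + 1) := by
    intro s k
    induction k with
    | zero => simp
    | succ k ih =>
      have := step1 (s + k)
      rw [show 2 * (s + k) + 3 = 2 * (s + (k + 1)) + 1 by ring] at this
      exact ih.trans this
  have odd_all : ∀ s M, 2 * s + 1 ≤ M → S (2 * s + 1) ≤ S M := by
    intro s M hM
    rcases Nat.even_or_odd' M with ⟨k, hk | hk⟩
    · obtain ⟨j, hj⟩ : ∃ j, k = s + j + 1 := ⟨k - s - 1, by omega⟩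
      have h1 := odd_mono s j
      have h2 := step0 (s + j)
      rw [show 2 * (s + j) + 2 = M by omega] at h2
      exact h1.trans h2
    · obtain ⟨j, hj⟩ : ∃ j, k = s + j := ⟨k - s, by omega⟩
      have h1 := odd_mono s j
      rw [show 2 * (s + j) + 1 = M by omega] at h1
      exact h1
  have hSn : ∀ M, 0 ≤ S M := fun M => norm_nonneg _
  change S N ≤ ((1 + θ) / (1 - θ)) * S M
  rcases Nat.even_or_odd' N with ⟨k, hk | hk⟩
  · rcases Nat.eq_zero_or_pos k with h0 | h0
    · have : S N = 0 := by simp [hS, hk, h0]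
      rw [this]
      exact mul_nonneg (by linarith) (hSn M)
    · obtain ⟨s, hs⟩ : ∃ s, k = s + 1 := ⟨k - 1, by omega⟩
      rcases Nat.lt_or_ge N M with hlt | hge
      · have h1 := step2 s
        have h2 := odd_all (s + 1) M (by omega)
        rw [show 2 * s + 2 = N by omega] at h1
        rw [show 2 * (s + 1) + 1 = 2 * s + 3 by ring] at h2
        exact h1.trans (mul_le_mul_of_nonneg_left h2 (by linarith))
      · have : N = M := le_antisymm hNM hge
        rw [this]
        nlinarith [hSn M]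
  · have h1 := odd_all k M (by omega)
    rw [← hk] at h1
    nlinarith [hSn M]

/-- All the tree vectors lie in the span. -/
theorem mem_span_fseq (hsplit : ∀ s, φ s = θ • φ (3 * s + 1) + (1 - θ) • φ (3 * s + 2))
    (hθ1 : θ < 1) (t : ℕ) : φ t ∈ Submodule.span ℝ (Set.range (fseq φ)) := by
  induction t using Nat.strong_induction_on with
  | _ t ih =>
    rcases Nat.eq_zero_or_pos t with h0 | h0
    · rw [h0, ← fseq_zero φ]
      exact Submodule.subset_span ⟨0, rfl⟩
    · obtain ⟨s, hs⟩ : ∃ s, t = 3 * s + 1 ∨ t = 3 * s + 2 ∨ t = 3 * s + 3 :=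
        ⟨(t - 1) / 3, by omega⟩
      have hsm := ih s (by omega)
      have h3 : φ (3 * s + 3) ∈ Submodule.span ℝ (Set.range (fseq φ)) := by
        have h1 : fseq φ (2 * s + 1) ∈ Submodule.span ℝ (Set.range (fseq φ)) :=
          Submodule.subset_span ⟨_, rfl⟩
        have h2 := Submodule.sub_mem _ h1 hsm
        rwa [fseq_odd, add_sub_cancel_right] at h2
      have h1 : φ (3 * s + 1) ∈ Submodule.span ℝ (Set.range (fseq φ)) := by
        have h1 : fseq φ (2 * s + 2) ∈ Submodule.span ℝ (Set.range (fseq φ)) :=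
          Submodule.subset_span ⟨_, rfl⟩
        have h2 := Submodule.sub_mem _ h1 h3
        rwa [fseq_even, add_sub_cancel_right] at h2
      have h2 : φ (3 * s + 2) ∈ Submodule.span ℝ (Set.range (fseq φ)) := by
        have h4 := Submodule.sub_mem _ hsm (Submodule.smul_mem _ θ h1)
        have h5 := Submodule.smul_mem _ (1 - θ)⁻¹ h4
        have h6 : (1 - θ)⁻¹ • (φ s - θ • φ (3 * s + 1)) = φ (3 * s + 2) := by
          have h7 : (1 - θ) ≠ 0 := by linarith
          rw [hsplit s, add_sub_cancel_left, smul_smul, inv_mul_cancel₀ h7, one_smul]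
        rwa [h6] at h5
      rcases hs with h | h | h
      · rw [h]; exact h1
      · rw [h]; exact h2
      · rw [h]; exact h3

end Abstract

section Tree

/-- An enumeration of the integers. -/
noncomputable def enumZ : ℕ ≃ ℤ := (Denumerable.eqv ℤ).symm

/-- Left endpoint and length of the `n`-th interval: interval `0` is a unit interval, intervals
`3s+1`, `3s+2` split interval `s` in the ratio `θ : 1 - θ`, and interval `3s+3` is a new unit
interval. -/
noncomputable def node (θ : ℝ) (n : ℕ) : ℝ × ℝ :=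
  match n with
  | 0 => ((enumZ 0 : ℝ), 1)
  | (m + 1) =>
    if m % 3 = 0 then ((node θ (m / 3)).1, θ * (node θ (m / 3)).2)
    else if m % 3 = 1 then
      ((node θ (m / 3)).1 + θ * (node θ (m / 3)).2, (1 - θ) * (node θ (m / 3)).2)
    else ((enumZ (m / 3 + 1) : ℝ), 1)
termination_by n
decreasing_by all_goals omega

theorem node_zero (θ : ℝ) : node θ 0 = ((enumZ 0 : ℝ), 1) := by rw [node]

theorem node_left (θ : ℝ) (s : ℕ) :
    node θ (3 * s + 1) = ((node θ s).1, θ * (node θ s).2) := by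
  have h1 : 3 * s % 3 = 0 := by omega
  have h2 : 3 * s / 3 = s := by omega
  rw [node, if_pos h1, h2]

theorem node_right (θ : ℝ) (s : ℕ) :
    node θ (3 * s + 2) = ((node θ s).1 + θ * (node θ s).2, (1 - θ) * (node θ s).2) := by
  have h0 : ¬ ((3 * s + 1) % 3 = 0) := by omega
  have h1 : (3 * s + 1) % 3 = 1 := by omega
  have h2 : (3 * s + 1) / 3 = s := by omega
  rw [node, if_neg h0, if_pos h1, h2]

theorem node_new (θ : ℝ) (s : ℕ) :
    node θ (3 * s + 3) = ((enumZ (s + 1) : ℝ), 1) := by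
  have h0 : ¬ ((3 * s + 2) % 3 = 0) := by omega
  have h1 : ¬ ((3 * s + 2) % 3 = 1) := by omega
  have h2 : (3 * s + 2) / 3 = s := by omega
  rw [node, if_neg h0, if_neg h1, h2]

/-- The index of the unit interval containing interval `n`. -/
def rt (n : ℕ) : ℕ :=
  match n with
  | 0 => 0
  | (m + 1) => if m % 3 = 2 then m / 3 + 1 else rt (m / 3)
termination_by n
decreasing_by all_goals omega

theorem rt_zero : rt 0 = 0 := by rw [rt]

theorem rt_left (s : ℕ) : rt (3 * s + 1) = rt s := by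
  have h1 : ¬ (3 * s % 3 = 2) := by omega
  have h2 : 3 * s / 3 = s := by omega
  rw [rt, if_neg h1, h2]

theorem rt_right (s : ℕ) : rt (3 * s + 2) = rt s := by
  have h1 : ¬ ((3 * s + 1) % 3 = 2) := by omega
  have h2 : (3 * s + 1) / 3 = s := by omega
  rw [rt, if_neg h1, h2]

theorem rt_new (s : ℕ) : rt (3 * s + 3) = s + 1 := by
  have h1 : (3 * s + 2) % 3 = 2 := by omega
  have h2 : (3 * s + 2) / 3 = s := by omega
  rw [rt, if_pos h1, h2]

theorem ternary_cases (t : ℕ) :
    t = 0 ∨ ∃ s, s < t ∧ (t = 3 * s + 1 ∨ t = 3 * s + 2 ∨ t = 3 * s + 3) := by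
  rcases Nat.eq_zero_or_pos t with h | h
  · exact Or.inl h
  · exact Or.inr ⟨(t - 1) / 3, by omega, by omega⟩

theorem rt_le (t : ℕ) : 3 * rt t ≤ t := by
  induction t using Nat.strong_induction_on with
  | _ t ih =>
    rcases ternary_cases t with h | ⟨s, hs, h | h | h⟩
    · rw [h, rt_zero]
    · have := ih s hs; rw [h, rt_left]; omega
    · have := ih s hs; rw [h, rt_right]; omega
    · rw [h, rt_new]; omega

variable {θ : ℝ}

theorem len_pos (h0 : 0 < θ) (h1 : θ < 1) (t : ℕ) : 0 < (node θ t).2 := by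
  induction t using Nat.strong_induction_on with
  | _ t ih =>
    rcases ternary_cases t with h | ⟨s, hs, h | h | h⟩
    · rw [h, node_zero]; norm_num
    · have := ih s hs; rw [h, node_left]; positivity
    · have := ih s hs; rw [h, node_right]
      exact mul_pos (by linarith) this
    · rw [h, node_new]; norm_num

theorem len_le_one (h0 : 0 < θ) (h1 : θ < 1) (t : ℕ) : (node θ t).2 ≤ 1 := by
  induction t using Nat.strong_induction_on with
  | _ t ih =>
    rcases ternary_cases t with h | ⟨s, hs, h | h | h⟩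
    · rw [h, node_zero]
    · have := ih s hs; have h3 := len_pos h0 h1 s
      rw [h, node_left]; show θ * _ ≤ 1; nlinarith
    · have := ih s hs; have h3 := len_pos h0 h1 s
      rw [h, node_right]; show (1 - θ) * _ ≤ 1; nlinarith
    · rw [h, node_new]

/-- The `t`-th interval. -/
def J (θ : ℝ) (t : ℕ) : Set ℝ := Ico (node θ t).1 ((node θ t).1 + (node θ t).2)

theorem mem_J (y : ℝ) (t : ℕ) : y ∈ J θ t ↔ (node θ t).1 ≤ y ∧ y < (node θ t).1 + (node θ t).2 :=
  Iff.rfl

theorem mem_J_split (h0 : 0 < θ) (h1 : θ < 1) (s : ℕ) (y : ℝ) :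
    y ∈ J θ s ↔ (y ∈ J θ (3 * s + 1) ∨ y ∈ J θ (3 * s + 2)) := by
  have hp := len_pos h0 h1 s
  rw [mem_J, mem_J, mem_J, node_left, node_right]
  simp only
  constructor
  · rintro ⟨ha, hb⟩
    rcases lt_or_ge y ((node θ s).1 + θ * (node θ s).2) with h | h
    · exact Or.inl ⟨ha, h⟩
    · refine Or.inr ⟨h, ?_⟩
      linarith
  · rintro (⟨ha, hb⟩ | ⟨ha, hb⟩)
    · refine ⟨ha, ?_⟩
      nlinarith
    · refine ⟨?_, ?_⟩
      · nlinarith
      · linarith

theorem J_children_disj (s : ℕ) (y : ℝ) (ha : y ∈ J θ (3 * s + 1)) (hb : y ∈ J θ (3 * s + 2)) :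
    False := by
  rw [mem_J, node_left] at ha
  rw [mem_J, node_right] at hb
  simp only at ha hb
  linarith [ha.2, hb.1]

theorem J_root (h0 : 0 < θ) (h1 : θ < 1) (t : ℕ) (y : ℝ) (hy : y ∈ J θ t) :
    ⌊y⌋ = enumZ (rt t) := by
  induction t using Nat.strong_induction_on with
  | _ t ih =>
    rcases ternary_cases t with h | ⟨s, hs, h | h | h⟩
    · subst h
      rw [mem_J, node_zero] at hy
      rw [rt_zero, Int.floor_eq_iff]
      exact hy
    · subst h
      rw [rt_left]
      exact ih s hs ((mem_J_split h0 h1 s y).mpr (Or.inl hy))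
    · subst h
      rw [rt_right]
      exact ih s hs ((mem_J_split h0 h1 s y).mpr (Or.inr hy))
    · subst h
      rw [mem_J, node_new] at hy
      rw [rt_new, Int.floor_eq_iff]
      exact hy

theorem J_disj (h0 : 0 < θ) (h1 : θ < 1) (s : ℕ) :
    ∀ t t', s ≤ t → t ≤ 3 * s → s ≤ t' → t' ≤ 3 * s → ∀ y, y ∈ J θ t → y ∈ J θ t' → t = t' := by
  induction s with
  | zero => intro t t' _ _ _ _ _ _ _; omega
  | succ s ih =>
    -- key: a wlog-free case analysis
    have key : ∀ t t', s + 1 ≤ t → t < t' → t' ≤ 3 * (s + 1) → ∀ y, y ∈ J θ t → y ∈ J θ t' →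
        False := by
      intro t t' ht htt ht' y hy hy'
      rcases Nat.lt_or_ge (3 * s + 2) t' with hn | hn
      · -- t' is the new interval
        have ht3 : t' = 3 * s + 3 := by omega
        have e1 := J_root h0 h1 t y hy
        have e2 := J_root h0 h1 t' y hy'
        rw [e1] at e2
        have e3 := enumZ.injective e2
        rw [ht3, rt_new] at e3
        have := rt_le t
        omega
      · rcases Nat.lt_or_ge (3 * s) t' with hm | hm
        · rcases Nat.lt_or_ge (3 * s) t with hk | hk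
          · have a1 : t = 3 * s + 1 := by omega
            have a2 : t' = 3 * s + 2 := by omega
            subst a1; subst a2
            exact J_children_disj s y hy hy'
          · have hys : y ∈ J θ s := by
              rw [mem_J_split h0 h1]
              have : t' = 3 * s + 1 ∨ t' = 3 * s + 2 := by omega
              rcases this with h | h
              · subst h; exact Or.inl hy'
              · subst h; exact Or.inr hy'
            have := ih t s (by omega) hk (le_refl _) (by omega) y hy hys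
            omega
        · have := ih t t' (by omega) (by omega) (by omega) hm y hy hy'
          omega
    intro t t' a1 a2 a3 a4 y hy hy'
    rcases lt_trichotomy t t' with h | h | h
    · exact (key t t' a1 h a4 y hy hy').elim
    · exact h
    · exact (key t' t a3 h a2 y hy' hy).elim

theorem J_cover (h0 : 0 < θ) (h1 : θ < 1) (s : ℕ) (y : ℝ) (hy : enumZ.symm ⌊y⌋ ≤ s) :
    ∃ t, s ≤ t ∧ t ≤ 3 * s ∧ y ∈ J θ t := by
  induction s with
  | zero =>
    refine ⟨0, le_refl _, le_refl _, ?_⟩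
    have h2 : enumZ.symm ⌊y⌋ = 0 := by omega
    have h3 : ⌊y⌋ = enumZ 0 := by rw [← h2, Equiv.apply_symm_apply]
    rw [mem_J, node_zero]
    exact Int.floor_eq_iff.mp h3
  | succ s ih =>
    rcases Nat.lt_or_ge s (enumZ.symm ⌊y⌋) with h | h
    · have h2 : enumZ.symm ⌊y⌋ = s + 1 := by omega
      have h3 : ⌊y⌋ = enumZ (s + 1) := by rw [← h2, Equiv.apply_symm_apply]
      refine ⟨3 * s + 3, by omega, by omega, ?_⟩
      rw [mem_J, node_new]
      exact Int.floor_eq_iff.mp h3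
    · obtain ⟨t, a1, a2, a3⟩ := ih h
      rcases Nat.eq_or_lt_of_le a1 with h4 | h4
      · subst h4
        rcases (mem_J_split h0 h1 s y).mp a3 with h5 | h5
        · exact ⟨3 * s + 1, by omega, by omega, h5⟩
        · exact ⟨3 * s + 2, by omega, by omega, h5⟩
      · exact ⟨t, by omega, by omega, a3⟩

theorem J_shrink (h0 : 0 < θ) (h1 : θ < 1) (m : ℕ) (k : ℕ) :
    ∃ S, ∀ t, S ≤ t → rt t = m → (node θ t).2 ≤ (max θ (1 - θ)) ^ k := by
  have hq : 0 < max θ (1 - θ) := lt_max_of_lt_left h0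
  induction k with
  | zero => exact ⟨0, fun t _ _ => by rw [pow_zero]; exact len_le_one h0 h1 t⟩
  | succ k ih =>
    obtain ⟨S, hS⟩ := ih
    refine ⟨max (3 * S + 4) (3 * m + 4), fun t ht hm => ?_⟩
    have ht1 := le_trans (le_max_left _ _) ht
    have ht2 := le_trans (le_max_right _ _) ht
    rcases ternary_cases t with h | ⟨s, hs, h | h | h⟩
    · omega
    · subst h
      rw [rt_left] at hm
      have h2 := hS s (by omega) hm
      have h3 := len_pos h0 h1 s
      rw [node_left, pow_succ]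
      show θ * (node θ s).2 ≤ _
      calc θ * (node θ s).2 ≤ max θ (1 - θ) * (node θ s).2 :=
            mul_le_mul_of_nonneg_right (le_max_left _ _) h3.le
        _ ≤ max θ (1 - θ) * (max θ (1 - θ)) ^ k := mul_le_mul_of_nonneg_left h2 hq.le
        _ = _ := mul_comm _ _
    · subst h
      rw [rt_right] at hm
      have h2 := hS s (by omega) hm
      have h3 := len_pos h0 h1 s
      rw [node_right, pow_succ]
      show (1 - θ) * (node θ s).2 ≤ _
      calc (1 - θ) * (node θ s).2 ≤ max θ (1 - θ) * (node θ s).2 :=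
            mul_le_mul_of_nonneg_right (le_max_right _ _) h3.le
        _ ≤ max θ (1 - θ) * (max θ (1 - θ)) ^ k := mul_le_mul_of_nonneg_left h2 hq.le
        _ = _ := mul_comm _ _
    · subst h
      rw [rt_new] at hm
      omega

/-- The normalised indicator of the `t`-th interval. -/
noncomputable def psi (θ : ℝ) (t : ℕ) : ℝ → ℝ := (J θ t).indicator (fun _ => ((node θ t).2)⁻¹)

theorem psi_of_mem {t : ℕ} {y : ℝ} (h : y ∈ J θ t) : psi θ t y = ((node θ t).2)⁻¹ :=
  Set.indicator_of_mem h _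

theorem psi_of_notMem {t : ℕ} {y : ℝ} (h : y ∉ J θ t) : psi θ t y = 0 :=
  Set.indicator_of_notMem h _

theorem psi_nonneg (h0 : 0 < θ) (h1 : θ < 1) (t : ℕ) (y : ℝ) : 0 ≤ psi θ t y :=
  Set.indicator_nonneg (fun _ _ => (inv_pos.mpr (len_pos h0 h1 t)).le) _

theorem psi_int (t : ℕ) : Integrable (psi θ t) volume := by
  refine (integrable_indicator_iff measurableSet_Ico).mpr ?_
  refine integrableOn_const ?_
  exact measure_Ico_lt_top.ne

theorem integral_psi (h0 : 0 < θ) (h1 : θ < 1) (t : ℕ) : ∫ y, psi θ t y = 1 := by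
  have hp := len_pos h0 h1 t
  unfold psi J
  rw [integral_indicator measurableSet_Ico, setIntegral_const, smul_eq_mul, Measure.real,
    Real.volume_Ico, add_sub_cancel_left, ENNReal.toReal_ofReal hp.le, mul_inv_cancel₀ hp.ne']

/-- The normalised indicators as elements of `L₁(ℝ)`. -/
noncomputable def phi (θ : ℝ) (t : ℕ) : Lp ℝ 1 (volume : Measure ℝ) :=
  (psi_int (θ := θ) t).toL1 (psi θ t)

theorem phi_ae (θ : ℝ) (t : ℕ) : ⇑(phi θ t) =ᵐ[volume] psi θ t :=
  Integrable.coeFn_toL1 _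

theorem phi_nonneg (h0 : 0 < θ) (h1 : θ < 1) (t : ℕ) : 0 ≤ phi θ t := by
  rw [← Lp.coeFn_nonneg]
  filter_upwards [phi_ae θ t] with y hy
  rw [hy]
  exact psi_nonneg h0 h1 t y

theorem psi_split (h0 : 0 < θ) (h1 : θ < 1) (s : ℕ) (y : ℝ) :
    psi θ s y = θ * psi θ (3 * s + 1) y + (1 - θ) * psi θ (3 * s + 2) y := by
  have hp := len_pos h0 h1 s
  have h2 : (0:ℝ) < 1 - θ := by linarith
  by_cases ha : y ∈ J θ (3 * s + 1)
  · have hb : y ∉ J θ (3 * s + 2) := fun hb => J_children_disj s y ha hb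
    rw [psi_of_mem ha, psi_of_notMem hb, psi_of_mem ((mem_J_split h0 h1 s y).mpr (Or.inl ha)),
      node_left]
    field_simp
    ring
  · by_cases hb : y ∈ J θ (3 * s + 2)
    · rw [psi_of_mem hb, psi_of_notMem ha, psi_of_mem ((mem_J_split h0 h1 s y).mpr (Or.inr hb)),
        node_right]
      field_simp
      ring
    · have hc : y ∉ J θ s := by
        rw [mem_J_split h0 h1]; tauto
      rw [psi_of_notMem ha, psi_of_notMem hb, psi_of_notMem hc]
      ring

theorem phi_split (h0 : 0 < θ) (h1 : θ < 1) (s : ℕ) :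
    phi θ s = θ • phi θ (3 * s + 1) + (1 - θ) • phi θ (3 * s + 2) := by
  apply Lp.ext
  filter_upwards [phi_ae θ s, phi_ae θ (3 * s + 1), phi_ae θ (3 * s + 2),
    Lp.coeFn_add (θ • phi θ (3 * s + 1)) ((1 - θ) • phi θ (3 * s + 2)),
    Lp.coeFn_smul θ (phi θ (3 * s + 1)), Lp.coeFn_smul (1 - θ) (phi θ (3 * s + 2))]
    with y e1 e2 e3 e4 e5 e6
  rw [e4, Pi.add_apply, e5, e6, Pi.smul_apply, Pi.smul_apply, e1, e2, e3, smul_eq_mul, smul_eq_mul]
  exact psi_split h0 h1 s y

theorem phi_sum_ae (F : Finset ℕ) (x : ℕ → ℝ) :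
    ⇑(∑ t ∈ F, x t • phi θ t) =ᵐ[volume] fun y => ∑ t ∈ F, x t * psi θ t y := by
  classical
  induction F using Finset.induction_on with
  | empty =>
    simp only [Finset.sum_empty]
    exact Lp.coeFn_zero _ _ _
  | insert a F ha ih =>
    rw [Finset.sum_insert ha]
    filter_upwards [ih, Lp.coeFn_add (x a • phi θ a) (∑ t ∈ F, x t • phi θ t),
      Lp.coeFn_smul (x a) (phi θ a), phi_ae θ a] with y e1 e2 e3 e4
    rw [e2, Pi.add_apply, e3, Pi.smul_apply, e4, e1, Finset.sum_insert ha, smul_eq_mul]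

theorem sum_psi_of_mem (h0 : 0 < θ) (h1 : θ < 1) (s : ℕ) (x : ℕ → ℝ) (y : ℝ) (t : ℕ)
    (hs : s ≤ t) (ht : t ≤ 3 * s) (hy : y ∈ J θ t) :
    ∑ t ∈ Finset.Ico s (3 * s + 1), x t * psi θ t y = x t * ((node θ t).2)⁻¹ := by
  rw [Finset.sum_eq_single t]
  · rw [psi_of_mem hy]
  · intro t' ht' hne
    have := Finset.mem_Ico.mp ht'
    have hn : y ∉ J θ t' := fun h => hne
      (J_disj h0 h1 s t' t this.1 (by omega) hs ht y h hy)
    rw [psi_of_notMem hn, mul_zero]
  · intro h
    exact absurd (Finset.mem_Ico.mpr ⟨hs, by omega⟩) h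

theorem sum_psi_of_notMem (s : ℕ) (x : ℕ → ℝ) (y : ℝ)
    (hy : ∀ t, s ≤ t → t ≤ 3 * s → y ∉ J θ t) :
    ∑ t ∈ Finset.Ico s (3 * s + 1), x t * psi θ t y = 0 := by
  apply Finset.sum_eq_zero
  intro t ht
  have := Finset.mem_Ico.mp ht
  rw [psi_of_notMem (hy t this.1 (by omega)), mul_zero]

theorem phi_iso (h0 : 0 < θ) (h1 : θ < 1) (s : ℕ) (x : ℕ → ℝ) :
    ‖∑ t ∈ Finset.Ico s (3 * s + 1), x t • phi θ t‖ = ∑ t ∈ Finset.Ico s (3 * s + 1), |x t| := by
  rw [L1.norm_eq_integral_norm]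
  have e1 : ∫ y, ‖(∑ t ∈ Finset.Ico s (3 * s + 1), x t • phi θ t : Lp ℝ 1 (volume : Measure ℝ)) y‖
      = ∫ y, ∑ t ∈ Finset.Ico s (3 * s + 1), |x t| * psi θ t y := by
    apply integral_congr_ae
    filter_upwards [phi_sum_ae (θ := θ) (Finset.Ico s (3 * s + 1)) x] with y hy
    rw [hy]
    by_cases h : ∃ t, s ≤ t ∧ t ≤ 3 * s ∧ y ∈ J θ t
    · obtain ⟨t, a1, a2, a3⟩ := h
      rw [sum_psi_of_mem h0 h1 s x y t a1 a2 a3,
        sum_psi_of_mem h0 h1 s (fun t => |x t|) y t a1 a2 a3, Real.norm_eq_abs, abs_mul,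
        abs_of_pos (inv_pos.mpr (len_pos h0 h1 t))]
    · push Not at h
      rw [sum_psi_of_notMem s x y h, sum_psi_of_notMem s (fun t => |x t|) y h, norm_zero]
  rw [e1, integral_finsetSum _ (fun t _ => (psi_int t).const_mul _)]
  apply Finset.sum_congr rfl
  intro t _
  rw [integral_const_mul, integral_psi h0 h1, mul_one]

end Tree

section Density

variable {θ : ℝ}

/-- The step function interpolating `g` at left endpoints of the current intervals. -/
noncomputable def stepF (θ : ℝ) (g : ℝ → ℝ) (s : ℕ) (y : ℝ) : ℝ :=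
  ∑ t ∈ Finset.Ico s (3 * s + 1), (g (node θ t).1 * (node θ t).2) * psi θ t y

theorem stepF_int (θ : ℝ) (g : ℝ → ℝ) (s : ℕ) : Integrable (stepF θ g s) volume :=
  integrable_finsetSum _ (fun t _ => (psi_int t).const_mul _)

theorem stepF_of_mem (h0 : 0 < θ) (h1 : θ < 1) (g : ℝ → ℝ) (s t : ℕ) (y : ℝ)
    (hs : s ≤ t) (ht : t ≤ 3 * s) (hy : y ∈ J θ t) : stepF θ g s y = g (node θ t).1 := by
  have hp := len_pos h0 h1 t
  unfold stepF
  rw [sum_psi_of_mem h0 h1 s _ y t hs ht hy, mul_assoc, mul_inv_cancel₀ hp.ne', mul_one]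

theorem stepF_of_notMem (g : ℝ → ℝ) (s : ℕ) (y : ℝ)
    (hy : ∀ t, s ≤ t → t ≤ 3 * s → y ∉ J θ t) : stepF θ g s y = 0 :=
  sum_psi_of_notMem s _ y hy

theorem stepF_tendsto (h0 : 0 < θ) (h1 : θ < 1) (g : ℝ → ℝ) (hg : Continuous g) (y : ℝ) :
    Tendsto (fun s => stepF θ g s y) atTop (𝓝 (g y)) := by
  rw [Metric.tendsto_atTop]
  intro ε hε
  obtain ⟨δ, hδ, hgd⟩ := Metric.continuous_iff.mp hg y ε hε
  have hq0 : 0 ≤ max θ (1 - θ) := le_max_of_le_left h0.le
  have hq1 : max θ (1 - θ) < 1 := max_lt h1 (by linarith)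
  obtain ⟨k, hk⟩ := exists_pow_lt_of_lt_one hδ hq1
  obtain ⟨S, hS⟩ := J_shrink h0 h1 (enumZ.symm ⌊y⌋) k
  refine ⟨max S (enumZ.symm ⌊y⌋), fun s hs => ?_⟩
  obtain ⟨t, a1, a2, a3⟩ := J_cover h0 h1 s y (le_trans (le_max_right _ _) hs)
  rw [stepF_of_mem h0 h1 g s t y a1 a2 a3]
  apply hgd
  have hr := J_root h0 h1 t y a3
  have hr2 : rt t = enumZ.symm ⌊y⌋ := by rw [hr, Equiv.symm_apply_apply]
  have hl := hS t (le_trans (le_trans (le_max_left _ _) hs) a1) hr2
  have hm := (mem_J y t).mp a3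
  rw [Real.dist_eq, abs_lt]
  constructor <;> linarith [hm.1, hm.2]

theorem stepF_L1 (h0 : 0 < θ) (h1 : θ < 1) (g : ℝ → ℝ) (hg : Continuous g)
    (hc : HasCompactSupport g) :
    Tendsto (fun s => ∫ y, ‖stepF θ g s y - g y‖) atTop (𝓝 0) := by
  obtain ⟨R, hR0, hR⟩ : ∃ R : ℝ, 0 < R ∧ ∀ y, R < |y| → g y = 0 := by
    obtain ⟨R, hR⟩ := hc.isCompact.isBounded.subset_closedBall (0 : ℝ)
    refine ⟨max R 1, lt_max_of_lt_right one_pos, fun y hy => ?_⟩
    by_contra hne
    have h2 : y ∈ tsupport g := subset_tsupport g hne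
    have h3 := hR h2
    rw [Metric.mem_closedBall, dist_zero_right, Real.norm_eq_abs] at h3
    have := le_max_left R 1
    linarith
  obtain ⟨C, hC⟩ : ∃ C : ℝ, ∀ y, ‖g y‖ ≤ C := hc.exists_bound_of_continuous hg
  have hC0 : 0 ≤ C := (norm_nonneg _).trans (hC 0)
  have hbound : ∀ s y, ‖stepF θ g s y - g y‖
      ≤ (Icc (-(R + 1)) (R + 1)).indicator (fun _ => 2 * C) y := by
    intro s y
    by_cases hy : y ∈ Icc (-(R + 1)) (R + 1)
    · rw [Set.indicator_of_mem hy]
      have h2 : ‖stepF θ g s y‖ ≤ C := by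
        by_cases h : ∃ t, s ≤ t ∧ t ≤ 3 * s ∧ y ∈ J θ t
        · obtain ⟨t, a1, a2, a3⟩ := h
          rw [stepF_of_mem h0 h1 g s t y a1 a2 a3]
          exact hC _
        · push Not at h
          rw [stepF_of_notMem g s y h, norm_zero]
          exact hC0
      have := norm_sub_le (stepF θ g s y) (g y)
      have := hC y
      linarith
    · rw [Set.indicator_of_notMem hy]
      have hyR : R + 1 < |y| := by
        by_contra hcon
        push Not at hcon
        exact hy (abs_le.mp hcon)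
      have h3 : g y = 0 := hR y (by linarith)
      have h4 : stepF θ g s y = 0 := by
        by_cases h : ∃ t, s ≤ t ∧ t ≤ 3 * s ∧ y ∈ J θ t
        · obtain ⟨t, a1, a2, a3⟩ := h
          rw [stepF_of_mem h0 h1 g s t y a1 a2 a3]
          apply hR
          have hm := (mem_J y t).mp a3
          have hl := len_le_one h0 h1 t
          rcases lt_abs.mp hyR with h5 | h5
          · exact lt_of_lt_of_le (by linarith) (le_abs_self _)
          · exact lt_of_lt_of_le (by linarith) (neg_le_abs _)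
        · push Not at h
          exact stepF_of_notMem g s y h
      rw [h3, h4, sub_zero, norm_zero]
  have hgi : Integrable g volume := hg.integrable_of_hasCompactSupport hc
  have key := tendsto_integral_of_dominated_convergence
    (F := fun s y => ‖stepF θ g s y - g y‖) (f := fun _ => (0:ℝ)) (μ := (volume : Measure ℝ))
    ((Icc (-(R + 1)) (R + 1)).indicator (fun _ => 2 * C))
    (fun s => ((stepF_int θ g s).sub hgi).norm.aestronglyMeasurable)
    ((integrable_indicator_iff measurableSet_Icc).mpr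
      (integrableOn_const measure_Icc_lt_top.ne))
    (fun s => Eventually.of_forall fun y => by
      rw [norm_norm]; exact hbound s y)
    (Eventually.of_forall fun y => by
      have := (stepF_tendsto h0 h1 g hg y).sub_const (g y)
      rw [sub_self] at this
      simpa using this.norm)
  simpa using key

theorem phi_dense (h0 : 0 < θ) (h1 : θ < 1) :
    Dense (Submodule.span ℝ (Set.range (phi θ)) : Set (Lp ℝ 1 (volume : Measure ℝ))) := by
  rw [Metric.dense_iff]
  intro f ε hε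
  obtain ⟨g, hgc, hgf, hg, hgi⟩ :=
    (L1.integrable_coeFn f).exists_hasCompactSupport_integral_sub_le (half_pos hε)
  have ht := (stepF_L1 h0 h1 g hg hgc)
  obtain ⟨s, hs⟩ := ((tendsto_order.mp ht).2 (ε / 2) (half_pos hε)).exists
  refine ⟨∑ t ∈ Finset.Ico s (3 * s + 1), (g (node θ t).1 * (node θ t).2) • phi θ t, ?_, ?_⟩
  · rw [Metric.mem_ball, dist_comm, dist_eq_norm, L1.norm_eq_integral_norm]
    have e1 : ∫ y, ‖(f - ∑ t ∈ Finset.Ico s (3 * s + 1),
          (g (node θ t).1 * (node θ t).2) • phi θ t : Lp ℝ 1 (volume : Measure ℝ)) y‖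
        = ∫ y, ‖f y - stepF θ g s y‖ := by
      apply integral_congr_ae
      filter_upwards [phi_sum_ae (θ := θ) (Finset.Ico s (3 * s + 1))
          (fun t => g (node θ t).1 * (node θ t).2),
        Lp.coeFn_sub f (∑ t ∈ Finset.Ico s (3 * s + 1),
          (g (node θ t).1 * (node θ t).2) • phi θ t)] with y e1 e2
      rw [e2, Pi.sub_apply, e1]
      rfl
    rw [e1]
    have hfi := L1.integrable_coeFn f
    have hsi := stepF_int θ g s
    calc ∫ y, ‖f y - stepF θ g s y‖
        ≤ ∫ y, (‖f y - g y‖ + ‖stepF θ g s y - g y‖) := by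
          apply integral_mono (hfi.sub hsi).norm
            ((hfi.sub hgi).norm.add (hsi.sub hgi).norm)
          intro y
          have : f y - stepF θ g s y = (f y - g y) - (stepF θ g s y - g y) := by ring
          simp only [Pi.sub_apply]
          rw [this]
          exact norm_sub_le _ _
      _ = (∫ y, ‖f y - g y‖) + ∫ y, ‖stepF θ g s y - g y‖ :=
          integral_add (hfi.sub hgi).norm (hsi.sub hgi).norm
      _ < ε := by linarith
  · apply Submodule.sum_mem
    intro t _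
    exact Submodule.smul_mem _ _ (Submodule.subset_span ⟨t, rfl⟩)

theorem phi_ne_zero (h0 : 0 < θ) (h1 : θ < 1) (t : ℕ) : phi θ t ≠ 0 := by
  intro h
  have h2 := L1.norm_eq_integral_norm (phi θ t)
  rw [h, norm_zero] at h2
  have h3 : ∫ y, ‖(phi θ t : Lp ℝ 1 (volume : Measure ℝ)) y‖ = ∫ y, psi θ t y := by
    apply integral_congr_ae
    filter_upwards [phi_ae θ t] with y hy
    rw [hy, Real.norm_eq_abs, abs_of_nonneg (psi_nonneg h0 h1 t y)]
  rw [← h, h3, integral_psi h0 h1] at h2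
  norm_num at h2

theorem norm_fseq_pos_aux (h0 : 0 < θ) (h1 : θ < 1) (n : ℕ) :
    0 ≤ fseq (phi θ) n ∧ fseq (phi θ) n ≠ 0 := by
  have add_ne : ∀ a b : Lp ℝ 1 (volume : Measure ℝ), 0 ≤ a → 0 ≤ b → b ≠ 0 → a + b ≠ 0 := by
    intro a b ha hb hne h
    have : b ≤ 0 := by
      calc b ≤ a + b := le_add_of_nonneg_left ha
        _ = 0 := h
    exact hne (le_antisymm this hb)
  unfold fseq
  split_ifs
  · exact ⟨phi_nonneg h0 h1 0, phi_ne_zero h0 h1 0⟩
  · exact ⟨add_nonneg (phi_nonneg h0 h1 _) (phi_nonneg h0 h1 _),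
      add_ne _ _ (phi_nonneg h0 h1 _) (phi_nonneg h0 h1 _) (phi_ne_zero h0 h1 _)⟩
  · exact ⟨add_nonneg (phi_nonneg h0 h1 _) (phi_nonneg h0 h1 _),
      add_ne _ _ (phi_nonneg h0 h1 _) (phi_nonneg h0 h1 _) (phi_ne_zero h0 h1 _)⟩

/-- A non-negative Schauder basis of `L₁(ℝ)` with constant at most `(1 + θ) / (1 - θ)`. -/
theorem exists_good_basis (h0 : 0 < θ) (h1 : θ < 1) :
    ∃ b : SchauderBasis ℝ (Lp ℝ 1 (volume : Measure ℝ)), (∀ n, 0 ≤ b n) ∧
      b.enormProjBound ≤ ENNReal.ofReal ((1 + θ) / (1 - θ)) := by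
  have hK := one_le_K h0.le h1
  have hd : Dense (Submodule.span ℝ (Set.range (fseq (phi θ))) :
      Set (Lp ℝ 1 (volume : Measure ℝ))) := by
    refine (phi_dense h0 h1).mono ?_
    have : Submodule.span ℝ (Set.range (phi θ))
        ≤ Submodule.span ℝ (Set.range (fseq (phi θ))) := by
      rw [Submodule.span_le]
      rintro _ ⟨t, rfl⟩
      exact mem_span_fseq (phi_split h0 h1) h1 t
    exact this
  obtain ⟨b, hb, hbK⟩ := exists_basis (fseq (phi θ))
    (fun n => (norm_fseq_pos_aux h0 h1 n).2) ((1 + θ) / (1 - θ)) (by linarith)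
    (K_ineq (phi_split h0 h1) h0.le h1 (phi_iso h0 h1)) hd
  exact ⟨b, fun n => by rw [hb n]; exact (norm_fseq_pos_aux h0 h1 n).1, hbK⟩

end Density

section NotAttained

/-- One-sided derivative of the `L₁`-norm at a non-negative function. -/
theorem integral_nonneg_of_norm_le (x g : ℝ → ℝ) (hx : Integrable x volume)
    (hg : Integrable g volume) (hx0 : ∀ᵐ y, 0 ≤ x y) (hxg : ∀ᵐ y, g y ≠ 0 → 0 < x y)
    (hle : ∀ t : ℝ, ∫ y, ‖x y‖ ≤ ∫ y, ‖x y + t * g y‖) : 0 ≤ ∫ y, g y := by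
  have key : Tendsto (fun n : ℕ => ∫ y, ((n : ℝ) + 1) * (‖x y + ((n : ℝ) + 1)⁻¹ * g y‖ - ‖x y‖))
      atTop (𝓝 (∫ y, g y)) := by
    refine tendsto_integral_of_dominated_convergence (fun y => ‖g y‖) ?_ hg.norm ?_ ?_
    · intro n
      exact (((hx.add (hg.const_mul _)).norm.sub hx.norm).const_mul _).aestronglyMeasurable
    · intro n
      refine Eventually.of_forall fun y => ?_
      have hn : (0:ℝ) < (n : ℝ) + 1 := by positivity
      rw [norm_mul, Real.norm_of_nonneg hn.le]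
      have h1 : ‖‖x y + ((n : ℝ) + 1)⁻¹ * g y‖ - ‖x y‖‖ ≤ ‖((n : ℝ) + 1)⁻¹ * g y‖ := by
        have := abs_norm_sub_norm_le (x y + ((n : ℝ) + 1)⁻¹ * g y) (x y)
        rw [add_sub_cancel_left] at this
        exact this
      have h2 : ‖((n : ℝ) + 1)⁻¹ * g y‖ = ((n : ℝ) + 1)⁻¹ * ‖g y‖ := by
        rw [norm_mul, Real.norm_of_nonneg (inv_pos.mpr hn).le]
      calc ((n : ℝ) + 1) * ‖‖x y + ((n : ℝ) + 1)⁻¹ * g y‖ - ‖x y‖‖
          ≤ ((n : ℝ) + 1) * (((n : ℝ) + 1)⁻¹ * ‖g y‖) := by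
            rw [← h2]; exact mul_le_mul_of_nonneg_left h1 hn.le
        _ = ‖g y‖ := by field_simp
    · filter_upwards [hx0, hxg] with y h1 h2
      by_cases hgy : g y = 0
      · simp [hgy]
      · have hxp := h2 hgy
        -- eventually x + g/(n+1) ≥ 0
        have hev : ∀ᶠ n : ℕ in atTop, 0 ≤ x y + ((n : ℝ) + 1)⁻¹ * g y := by
          have ht : Tendsto (fun n : ℕ => x y + ((n : ℝ) + 1)⁻¹ * g y) atTop
              (𝓝 (x y + 0 * g y)) := by
            refine (Tendsto.mul_const _ ?_).const_add _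
            have := tendsto_one_div_add_atTop_nhds_zero_nat (𝕜 := ℝ)
            simpa [one_div] using this
          rw [zero_mul, add_zero] at ht
          exact (ht.eventually (lt_mem_nhds hxp)).mono fun n hn => hn.le
        refine tendsto_const_nhds.congr' ?_
        filter_upwards [hev] with n hn
        have hn1 : (0:ℝ) < (n : ℝ) + 1 := by positivity
        rw [Real.norm_of_nonneg hn, Real.norm_of_nonneg h1]
        field_simp
        ring
  refine ge_of_tendsto' key fun n => ?_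
  rw [integral_const_mul]
  have hn1 : (0:ℝ) < (n : ℝ) + 1 := by positivity
  refine mul_nonneg hn1.le ?_
  have hs : Integrable (fun y => ‖x y + ((n : ℝ) + 1)⁻¹ * g y‖) volume :=
    (hx.add (hg.const_mul _)).norm
  rw [integral_sub hs hx.norm]
  exact sub_nonneg.mpr (hle _)

theorem integral_eq_zero_of_norm_le (x g : ℝ → ℝ) (hx : Integrable x volume)
    (hg : Integrable g volume) (hx0 : ∀ᵐ y, 0 ≤ x y) (hxg : ∀ᵐ y, g y ≠ 0 → 0 < x y)
    (hle : ∀ t : ℝ, ∫ y, ‖x y‖ ≤ ∫ y, ‖x y + t * g y‖) : ∫ y, g y = 0 := by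
  refine le_antisymm ?_ (integral_nonneg_of_norm_le x g hx hg hx0 hxg hle)
  have h1 := integral_nonneg_of_norm_le x (fun y => - g y) hx hg.neg hx0
    (hxg.mono fun y hy h => hy (by intro h0; apply h; rw [h0, neg_zero]))
    (fun t => by
      have := hle (-t)
      refine this.trans (le_of_eq ?_)
      congr 1
      ext y
      congr 2
      ring)
  rw [integral_neg] at h1
  linarith

/-- A function in `L₁(ℝ)` that is halved by a symmetric interval. -/
theorem exists_half (u : ℝ → ℝ) (hu : Integrable u volume) (hI : 0 < ∫ y, u y) :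
    ∃ r : ℝ, 0 ≤ r ∧ ∫ y in (-r)..r, u y = (∫ y, u y) / 2 := by
  have hint : ∀ a b : ℝ, IntervalIntegrable u volume a b := fun a b => hu.intervalIntegrable
  have hcont : Continuous fun r : ℝ => ∫ y in (-r)..r, u y := by
    have h1 : (fun r : ℝ => ∫ y in (-r)..r, u y)
        = fun r => (∫ y in (0:ℝ)..r, u y) - ∫ y in (0:ℝ)..(-r), u y := by
      ext r
      rw [intervalIntegral.integral_interval_sub_left (hint _ _) (hint _ _)]
    rw [h1]
    have h2 := intervalIntegral.continuous_primitive hint 0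
    exact h2.sub (h2.comp continuous_neg)
  have hlim : Tendsto (fun r : ℝ => ∫ y in (-r)..r, u y) atTop (𝓝 (∫ y, u y)) :=
    intervalIntegral_tendsto_integral hu tendsto_neg_atTop_atBot tendsto_id
  obtain ⟨R, hR0, hR⟩ : ∃ R : ℝ, 0 ≤ R ∧ (∫ y, u y) / 2 < ∫ y in (-R)..R, u y := by
    have h1 := (tendsto_order.mp hlim).1 ((∫ y, u y) / 2) (by linarith)
    obtain ⟨R, hR1, hR2⟩ := (h1.and (eventually_ge_atTop 0)).exists
    exact ⟨R, hR2, hR1⟩
  have hz : ∫ y in (-(0:ℝ))..0, u y = 0 := by simp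
  have hmem : (∫ y, u y) / 2 ∈ Icc (∫ y in (-(0:ℝ))..0, u y) (∫ y in (-R)..R, u y) := by
    rw [hz]; exact ⟨by linarith, hR.le⟩
  obtain ⟨r, hr, hr2⟩ := intermediate_value_Icc hR0 hcont.continuousOn hmem
  exact ⟨r, hr.1, hr2⟩

/-- No non-negative Schauder basis of `L₁(ℝ)` is monotone. -/
theorem not_monotone (b : SchauderBasis ℝ (Lp ℝ 1 (volume : Measure ℝ))) (hb : ∀ n, 0 ≤ b n) :
    1 < b.enormProjBound := by
  by_contra hcon
  push Not at hcon
  have hproj : ∀ n z, ‖b.proj n z‖ ≤ ‖z‖ := by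
    intro n z
    have h1 : ‖b.proj n‖ₑ ≤ 1 := (b.enorm_proj_le_enormProjBound n).trans hcon
    have h2 : ‖b.proj n‖ ≤ 1 := by
      rw [← ofReal_norm] at h1
      exact (ENNReal.ofReal_le_one).mp h1
    have h3 := (b.proj n).le_opNorm z
    nlinarith [norm_nonneg z]
  have hne : ∀ n, b n ≠ 0 := by
    intro n h
    have h1 := b.ortho n n
    have h2 : b.basis n = 0 := h
    rw [h2, map_zero] at h1
    simp at h1
  have hnn : ∀ n, ∀ᵐ y, 0 ≤ (b n : Lp ℝ 1 (volume : Measure ℝ)) y := fun n =>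
    (Lp.coeFn_nonneg (b n)).mpr (hb n)
  have hintpos : ∀ n, 0 < ∫ y, (b n : Lp ℝ 1 (volume : Measure ℝ)) y := by
    intro n
    have h1 : ‖b n‖ = ∫ y, (b n : Lp ℝ 1 (volume : Measure ℝ)) y := by
      rw [L1.norm_eq_integral_norm]
      apply integral_congr_ae
      filter_upwards [hnn n] with y hy
      rw [Real.norm_of_nonneg hy]
    rw [← h1]
    exact norm_pos_iff.mpr (hne n)
  -- the test function
  obtain ⟨r, hr0, hr⟩ := exists_half _ (L1.integrable_coeFn (b 0)) (hintpos 0)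
  have hu := L1.integrable_coeFn (b 0)
  set u : ℝ → ℝ := ⇑(b 0 : Lp ℝ 1 (volume : Measure ℝ)) with hudef
  have hwi : Integrable (fun y => 2 * (Ioc (-r) r).indicator u y - u y) volume :=
    ((hu.indicator measurableSet_Ioc).const_mul 2).sub hu
  have hwint : ∫ y, (2 * (Ioc (-r) r).indicator u y - u y) = 0 := by
    rw [integral_sub ((hu.indicator measurableSet_Ioc).const_mul 2) hu, integral_const_mul,
      integral_indicator measurableSet_Ioc, ← intervalIntegral.integral_of_le (by linarith), hr]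
    ring
  have hwabs : ∀ y, ‖2 * (Ioc (-r) r).indicator u y - u y‖ = ‖u y‖ := by
    intro y
    by_cases hy : y ∈ Ioc (-r) r
    · rw [Set.indicator_of_mem hy]
      congr 1; ring
    · rw [Set.indicator_of_notMem hy, mul_zero, zero_sub, norm_neg]
  set h : Lp ℝ 1 (volume : Measure ℝ) := hwi.toL1 _ with hh
  have hae : ⇑h =ᵐ[volume] fun y => 2 * (Ioc (-r) r).indicator u y - u y :=
    Integrable.coeFn_toL1 _
  have hnorm : ‖h‖ = ‖b 0‖ := by
    rw [L1.norm_eq_integral_norm, L1.norm_eq_integral_norm]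
    apply integral_congr_ae
    filter_upwards [hae] with y hy
    rw [hy, hwabs]
  have hint0 : ∫ y, h y = 0 := by
    rw [integral_congr_ae hae, hwint]
  -- integrals of partial sums vanish
  have hpart : ∀ N, 1 ≤ N → ∫ y, (b.proj N h : Lp ℝ 1 (volume : Measure ℝ)) y = 0 := by
    intro N hN
    set X : Lp ℝ 1 (volume : Measure ℝ) := ∑ n ∈ Finset.range N, b n with hX
    have hPX : b.proj N X = X := by
      rw [hX, map_sum]
      apply Finset.sum_congr rfl
      intro n hn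
      rw [b.proj_apply_basis_mem, if_pos (Finset.mem_range.mp hn)]
    have hPP : b.proj N (b.proj N h) = b.proj N h := by
      rw [b.proj_comp, min_self]
    set G : Lp ℝ 1 (volume : Measure ℝ) := h - b.proj N h with hG
    have hPG : b.proj N G = 0 := by rw [hG, map_sub, hPP, sub_self]
    have hle : ∀ t : ℝ, ‖X‖ ≤ ‖X + t • G‖ := by
      intro t
      have h1 := hproj N (X + t • G)
      rwa [map_add, map_smul, hPX, hPG, smul_zero, add_zero] at h1
    have hXae : ⇑X =ᵐ[volume] fun y => ∑ n ∈ Finset.range N, (b n : Lp ℝ 1 (volume : Measure ℝ)) y :=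
      Lp.coeFn_fun_finsetSum _ _
    have hPae : ⇑(b.proj N h) =ᵐ[volume] fun y => ∑ n ∈ Finset.range N,
        b.coord n h * (b n : Lp ℝ 1 (volume : Measure ℝ)) y := by
      rw [b.proj_apply]
      have h1 := Lp.coeFn_fun_finsetSum (μ := (volume : Measure ℝ)) (p := 1) (Finset.range N)
        (fun n => b.coord n h • b n)
      have h2 : ∀ᵐ y, ∀ n, (b.coord n h • b n : Lp ℝ 1 (volume : Measure ℝ)) y
          = b.coord n h * (b n : Lp ℝ 1 (volume : Measure ℝ)) y := by
        rw [ae_all_iff]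
        intro n
        filter_upwards [Lp.coeFn_smul (b.coord n h) (b n)] with y hy
        rw [hy, Pi.smul_apply, smul_eq_mul]
      filter_upwards [h1, h2] with y e1 e2
      rw [e1]
      exact Finset.sum_congr rfl fun n _ => e2 n
    have hall : ∀ᵐ y, ∀ n, 0 ≤ (b n : Lp ℝ 1 (volume : Measure ℝ)) y := ae_all_iff.mpr hnn
    have hGae : ⇑G =ᵐ[volume] fun y => h y - (b.proj N h : Lp ℝ 1 (volume : Measure ℝ)) y := by
      filter_upwards [Lp.coeFn_sub h (b.proj N h)] with y hy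
      rw [hG, hy, Pi.sub_apply]
    have hGi := L1.integrable_coeFn G
    have hXi := L1.integrable_coeFn X
    have hG0 : ∫ y, (G : Lp ℝ 1 (volume : Measure ℝ)) y = 0 := by
      apply integral_eq_zero_of_norm_le _ _ hXi hGi
      · filter_upwards [hXae, hall] with y e1 e2
        rw [e1]
        exact Finset.sum_nonneg fun n _ => e2 n
      · filter_upwards [hXae, hall, hGae, hPae, hae] with y e1 e2 e3 e4 e5 hne0
        rw [e1]
        by_contra hcon2
        push Not at hcon2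
        have hzero : ∀ n ∈ Finset.range N, (b n : Lp ℝ 1 (volume : Measure ℝ)) y = 0 :=
          (Finset.sum_eq_zero_iff_of_nonneg fun n _ => e2 n).mp
            (le_antisymm hcon2 (Finset.sum_nonneg fun n _ => e2 n))
        apply hne0
        rw [e3, e4, e5]
        have hu0 : u y = 0 := hzero 0 (Finset.mem_range.mpr (by omega))
        have hs : ∑ n ∈ Finset.range N, b.coord n h * (b n : Lp ℝ 1 (volume : Measure ℝ)) y = 0 :=
          Finset.sum_eq_zero fun n hn => by rw [hzero n hn, mul_zero]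
        rw [hs, sub_zero]
        by_cases hy : y ∈ Ioc (-r) r
        · rw [Set.indicator_of_mem hy, hu0]; ring
        · rw [Set.indicator_of_notMem hy, hu0]; ring
      · intro t
        have h1 := hle t
        rw [L1.norm_eq_integral_norm, L1.norm_eq_integral_norm] at h1
        refine h1.trans (le_of_eq ?_)
        apply integral_congr_ae
        filter_upwards [Lp.coeFn_add X (t • G), Lp.coeFn_smul t G] with y e1 e2
        rw [e1, Pi.add_apply, e2, Pi.smul_apply, smul_eq_mul]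
    rw [integral_congr_ae hGae, integral_sub (L1.integrable_coeFn h)
      (L1.integrable_coeFn (b.proj N h)), hint0, zero_sub, neg_eq_zero] at hG0
    exact hG0
  have hpart0 : ∀ N, ∫ y, (b.proj N h : Lp ℝ 1 (volume : Measure ℝ)) y = 0 := by
    intro N
    rcases Nat.eq_zero_or_pos N with h0 | h0
    · subst h0
      rw [b.proj_zero]
      rw [integral_congr_ae (g := fun _ => (0:ℝ))]
      · simp
      · exact Lp.coeFn_zero _ _ _
    · exact hpart N h0
  have hcoord : ∀ n, b.coord n h = 0 := by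
    intro n
    have h1 := hpart0 (n + 1)
    have h2 : b.proj (n + 1) h = b.proj n h + b.coord n h • b n := by
      rw [b.proj_apply, b.proj_apply, Finset.sum_range_succ]
    have h3 : ∫ y, (b.proj (n + 1) h : Lp ℝ 1 (volume : Measure ℝ)) y
        = ∫ y, ((b.proj n h : Lp ℝ 1 (volume : Measure ℝ)) y
          + b.coord n h * (b n : Lp ℝ 1 (volume : Measure ℝ)) y) := by
      apply integral_congr_ae
      rw [h2]
      filter_upwards [Lp.coeFn_add (b.proj n h) (b.coord n h • b n),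
        Lp.coeFn_smul (b.coord n h) (b n)] with y e1 e2
      rw [e1, Pi.add_apply, e2, Pi.smul_apply, smul_eq_mul]
    rw [h3, integral_add (L1.integrable_coeFn _) ((L1.integrable_coeFn _).const_mul _),
      integral_const_mul, hpart0 n, zero_add] at h1
    rcases mul_eq_zero.mp h1 with h4 | h4
    · exact h4
    · exact absurd h4 (hintpos n).ne'
  have hz : h = 0 := by
    have h1 := b.tendsto_proj h
    have h2 : ∀ n, b.proj n h = 0 := by
      intro n
      rw [b.proj_apply]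
      exact Finset.sum_eq_zero fun i _ => by rw [hcoord i, zero_smul]
    simp only [h2] at h1
    exact tendsto_nhds_unique h1 tendsto_const_nhds
  rw [hz, norm_zero] at hnorm
  exact hne 0 (norm_eq_zero.mp hnorm.symm)

end NotAttained

/-- **Q2 of MP_c30670_an.** The infimum of the basis constants of all non-negative Schauder bases
of `L₁(ℝ)` is `1`, and it is not attained: every such basis has basis constant greater
than `1`. -/
theorem result :
    sInf {C : ℝ≥0∞ | ∃ b : SchauderBasis ℝ (Lp ℝ 1 (volume : Measure ℝ)),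
      (∀ n, 0 ≤ b n) ∧ b.enormProjBound = C} = 1 ∧
    ∀ b : SchauderBasis ℝ (Lp ℝ 1 (volume : Measure ℝ)),
      (∀ n, 0 ≤ b n) → 1 < b.enormProjBound := by
  refine ⟨?_, not_monotone⟩
  apply le_antisymm
  · refine le_of_forall_gt fun c hc => ?_
    -- find θ with (1+θ)/(1-θ) < c
    have hlim : Tendsto (fun n : ℕ => ENNReal.ofReal
        ((1 + ((n : ℝ) + 2)⁻¹) / (1 - ((n : ℝ) + 2)⁻¹))) atTop (𝓝 1) := by
      have h1 : Tendsto (fun n : ℕ => ((n : ℝ) + 2)⁻¹) atTop (𝓝 0) :=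
        tendsto_inv_atTop_zero.comp
          (tendsto_atTop_add_const_right _ _ tendsto_natCast_atTop_atTop)
      have h2 : Tendsto (fun n : ℕ => (1 + ((n : ℝ) + 2)⁻¹) / (1 - ((n : ℝ) + 2)⁻¹)) atTop
          (𝓝 ((1 + 0) / (1 - 0))) :=
        (h1.const_add 1).div (h1.const_sub 1) (by norm_num)
      have h3 := (ENNReal.continuous_ofReal.tendsto _).comp h2
      have h4 : ENNReal.ofReal ((1 + 0) / (1 - 0)) = 1 := by simp
      rw [h4] at h3
      exact h3
    obtain ⟨n, hn⟩ := ((tendsto_order.mp hlim).2 c hc).exists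
    have hθ0 : (0:ℝ) < ((n : ℝ) + 2)⁻¹ := by positivity
    have hθ1 : ((n : ℝ) + 2)⁻¹ < 1 := inv_lt_one_of_one_lt₀ (by
      have : (0:ℝ) ≤ n := Nat.cast_nonneg n
      linarith)
    obtain ⟨b, hb, hbK⟩ := exists_good_basis hθ0 hθ1
    exact lt_of_le_of_lt (sInf_le ⟨b, hb, rfl⟩) (lt_of_le_of_lt hbK hn)
  · refine le_sInf ?_
    rintro C ⟨b, hb, rfl⟩
    exact (not_monotone b hb).le

end Pool.Agent.Results.MP_c30670_an.NonnegBasisInfimum
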